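import Mathlib

/-! Existence of derivations in characteristic zero (after helper21's file for another problem). -/

namespace Pool.Agent.MP_249f74_an.H97

open KaehlerDifferential Module

theorem kaehler_basis {F L ι : Type*} [Field F] [CharZero F] [Field L] [Algebra F L] {v : ι → L}
    (hv : IsTranscendenceBasis F v) :
    ∃ b : Basis ι L Ω[L⁄F], ∀ i, b i = D F L (v i) := by
  let S := MvPolynomial ι F
  let _ : Algebra S L := (MvPolynomial.aeval v : S →ₐ[F] L).toRingHom.toAlgebra
  have _ : IsScalarTower F S L := .of_algebraMap_eq fun a => by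
    change _ = MvPolynomial.aeval v (MvPolynomial.C a)
    simp
  let E := IntermediateField.adjoin F (Set.range v)
  let e := hv.1.aevalEquivField
  let _ : Algebra S E := (e.toAlgHom.toRingHom.comp (algebraMap S (FractionRing S))).toAlgebra
  have _ : IsScalarTower S E L := .of_algebraMap_eq fun a =>
    (hv.1.aevalEquivField_algebraMap_apply_coe a).symm
  have h1 : Algebra.FormallyEtale S (FractionRing S) :=
    Algebra.FormallyEtale.of_isLocalization (nonZeroDivisors S)
  let e' : FractionRing S ≃ₐ[S] E := { e.toRingEquiv with commutes' := fun _ => rfl }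
  have h2 : Algebra.FormallyEtale S E := Algebra.FormallyEtale.of_equiv e'
  have _ : Algebra.IsAlgebraic E L := hv.isAlgebraic_field
  have _ : CharZero E := algebraRat.charZero _
  have h3 : Algebra.FormallyEtale E L := Algebra.FormallyEtale.of_isSeparable E L
  have h4 : Algebra.FormallyEtale S L := Algebra.FormallyEtale.comp S E L
  refine ⟨((mvPolynomialBasis F ι).baseChange L).map (tensorKaehlerEquivOfFormallyEtale F S L),
    fun i => ?_⟩
  rw [Basis.map_apply, Basis.baseChange_apply, mvPolynomialBasis_apply,
    tensorKaehlerEquivOfFormallyEtale_apply, mapBaseChange_tmul, one_smul, map_D]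
  congr 1
  exact MvPolynomial.aeval_X v i

section

variable {F L ι M : Type*} [Field F] [CharZero F] [Field L] [Algebra F L] {v : ι → L}
  [AddCommGroup M] [Module L M] [Module F M] [IsScalarTower F L M]

theorem der_exists (hv : IsTranscendenceBasis F v) (w : ι → M) :
    ∃ E : Derivation F L M, ∀ i, E (v i) = w i := by
  obtain ⟨b, hb⟩ := kaehler_basis hv
  refine ⟨(b.constr L w).compDer (D F L), fun i => ?_⟩
  change b.constr L w (D F L (v i)) = _
  rw [← hb, Basis.constr_basis]

theorem der_exists_of_indep (hv : AlgebraicIndependent F v) (w : ι → M) :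
    ∃ E : Derivation F L M, ∀ i, E (v i) = w i := by
  classical
  obtain ⟨t, hst, ht⟩ := exists_isTranscendenceBasis_superset hv.to_subtype_range
  obtain ⟨E, hE⟩ := der_exists ht
    (fun a : t => if h : ∃ i, v i = a.1 then w h.choose else (0 : M))
  refine ⟨E, fun i => ?_⟩
  have h : ∃ j, v j = v i := ⟨i, rfl⟩
  have := hE ⟨v i, hst ⟨i, rfl⟩⟩
  simp only [dif_pos h] at this
  rw [this, hv.injective h.choose_spec]

end

theorem isAlgebraic_of_der {F L : Type*} [Field F] [CharZero F] [Field L] [Algebra F L] {x : L}
    (h : ∀ D : Derivation F L L, D x = 0) : IsAlgebraic F x := by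
  by_contra hx
  have h1 : AlgebraicIndependent F (fun _ : Unit => x) :=
    algebraicIndependent_unique_type_iff.2 hx
  obtain ⟨E, hE⟩ := der_exists_of_indep h1 (fun _ => (1 : L))
  exact one_ne_zero ((hE ()).symm.trans (h E))

end Pool.Agent.MP_249f74_an.H97
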