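import Mathlib

/-!
Transcendence rank of finite families, through the algebraic matroid.
-/

open Set MvPolynomial

namespace Pool.Agent.MP_249f74_an.H97

section

variable (k : Type*) [Field k] {A : Type*} [CommRing A] [IsDomain A] [Algebra k A]

/-- The transcendence rank over `k` of a subset of a domain. -/
noncomputable def rk (s : Set A) : ℕ∞ := (AlgebraicIndependent.matroid k A).eRk s

/-- The elements that are algebraic over the algebra generated by `s`. -/
noncomputable def cl (s : Set A) : Subalgebra k A :=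
  (Subalgebra.algebraicClosure (Algebra.adjoin k s) A).restrictScalars k

variable {k}

lemma mem_cl {s : Set A} {x : A} : x ∈ cl k s ↔ IsAlgebraic (Algebra.adjoin k s) x :=
  Subalgebra.mem_algebraicClosure _ _

lemma cl_eq (s : Set A) : (cl k s : Set A) = (AlgebraicIndependent.matroid k A).closure s := by
  rw [AlgebraicIndependent.matroid_closure_eq]
  rfl

lemma subset_cl {s : Set A} {x : A} (hx : x ∈ s) : x ∈ cl k s := by
  rw [← SetLike.mem_coe, cl_eq]
  exact Matroid.subset_closure _ _ (subset_univ _) hx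

lemma cl_le {s t : Set A} (h : ∀ x ∈ s, x ∈ cl k t) {x : A} (hx : x ∈ cl k s) : x ∈ cl k t := by
  rw [← SetLike.mem_coe, cl_eq] at hx ⊢
  have h1 : s ⊆ (AlgebraicIndependent.matroid k A).closure t := fun y hy => by
    rw [← cl_eq]; exact h y hy
  exact Matroid.closure_subset_closure_of_subset_closure h1 hx

lemma rk_le_of_cl {s t : Set A} (h : ∀ x ∈ s, x ∈ cl k t) : rk k s ≤ rk k t := by
  have h1 : s ⊆ (AlgebraicIndependent.matroid k A).closure t := fun y hy => by
    rw [← cl_eq]; exact h y hy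
  exact (Matroid.eRk_mono _ h1).trans (Matroid.eRk_closure_eq _ _).le

lemma rk_mono {s t : Set A} (h : s ⊆ t) : rk k s ≤ rk k t := Matroid.eRk_mono _ h

lemma rk_union_le (s t : Set A) : rk k (s ∪ t) ≤ rk k s + rk k t :=
  Matroid.eRk_union_le_eRk_add_eRk _ _ _

lemma rk_insert {s : Set A} {x : A} (h : x ∉ cl k s) : rk k (insert x s) = rk k s + 1 := by
  refine Matroid.eRk_insert_eq_add_one ⟨mem_univ _, ?_⟩
  rw [← cl_eq]; exact h

lemma rk_insert_le (s : Set A) (x : A) : rk k (insert x s) ≤ rk k s + 1 :=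
  Matroid.eRk_insert_le_add_one _ _ _

lemma rk_range_le {ι : Type*} [Fintype ι] (x : ι → A) : rk k (range x) ≤ Fintype.card ι := by
  refine (Matroid.eRk_le_encard _ _).trans ?_
  rw [← image_univ]
  refine (encard_image_le _ _).trans ?_
  rw [encard_univ, ENat.card_eq_coe_fintype_card]

lemma aeval_mem_cl {ι : Type*} {x : ι → A} {s : Set A} (h : ∀ i, x i ∈ cl k s)
    (P : MvPolynomial ι k) : aeval x P ∈ cl k s := by
  have h1 : Algebra.adjoin k (range x) ≤ cl k s := Algebra.adjoin_le (range_subset_iff.2 h)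
  apply h1
  rw [Algebra.adjoin_range_eq_range_aeval]
  exact ⟨P, rfl⟩

lemma rk_range_lt {ι : Type*} [Fintype ι] {x : ι → A} {P : MvPolynomial ι k} (hP : P ≠ 0)
    (h : aeval x P = 0) : rk k (range x) + 1 ≤ Fintype.card ι := by
  have hfin : rk k (range x) ≠ ⊤ := ne_top_of_le_ne_top (ENat.coe_ne_top _) (rk_range_le x)
  rw [ENat.add_one_le_iff hfin]
  refine lt_of_le_of_ne (rk_range_le x) fun he => hP ?_
  have h1 : (range x).encard ≤ Fintype.card ι := by
    rw [← image_univ]
    refine (encard_image_le _ _).trans ?_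
    rw [encard_univ, ENat.card_eq_coe_fintype_card]
  have h2 : rk k (range x) ≤ (range x).encard := Matroid.eRk_le_encard _ _
  have h3 : (range x).encard = Fintype.card ι := le_antisymm h1 (he ▸ h2)
  have hind : (AlgebraicIndependent.matroid k A).Indep (range x) :=
    (Matroid.indep_iff_eRk_eq_encard_of_finite (finite_range x)).2 (he.trans h3.symm)
  have hinj : Function.Injective x := by
    rw [← injOn_univ]
    refine (finite_univ).injOn_of_encard_image_eq ?_
    rw [image_univ, h3, encard_univ, ENat.card_eq_coe_fintype_card]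
  have h4 : AlgebraicIndependent k x := AlgebraicIndependent.of_subtype_range hinj hind
  exact h4 (h.trans (map_zero _).symm)

lemma exists_basis {ι : Type*} (x : ι → A) : ∃ J : Set ι, J.encard = rk k (range x) ∧
    ∀ j, IsAlgebraic (Algebra.adjoin k (x '' J)) (x j) := by
  obtain ⟨I, hI⟩ := (AlgebraicIndependent.matroid k A).exists_isBasis (range x) (subset_univ _)
  obtain ⟨J, rfl, hJ⟩ := exists_image_eq_injOn_of_subset_range hI.subset
  refine ⟨J, ?_, fun j =>
    (AlgebraicIndependent.matroid_isBasis_iff.1 hI).2.2 _ (mem_range_self j)⟩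
  rw [rk, hI.eRk_eq_encard, hJ.encard_image]

variable {C : Type*} [CommRing C] [IsDomain C] [Algebra k C]

lemma rk_le_image (φ : A →ₐ[k] C) {s : Set A} (h : InjOn φ (Algebra.adjoin k s)) :
    rk k s ≤ rk k (φ '' s) := by
  obtain ⟨I, hI⟩ := (AlgebraicIndependent.matroid k A).exists_isBasis s (subset_univ _)
  have hsub : (Algebra.adjoin k I : Set A) ⊆ Algebra.adjoin k s :=
    Algebra.adjoin_mono hI.subset
  have h1 : AlgebraicIndependent k ((↑) : I → A) := hI.indep
  have h2 : AlgebraicIndependent k (φ ∘ ((↑) : I → A)) :=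
    h1.map (by rw [Subtype.range_coe]; exact h.mono hsub)
  have h3 : (AlgebraicIndependent.matroid k C).Indep (φ '' I) := by
    have := h2.to_subtype_range
    rwa [range_comp, Subtype.range_coe] at this
  have h4 : InjOn φ I := h.mono (Algebra.subset_adjoin.trans hsub)
  rw [rk, hI.eRk_eq_encard, ← h4.encard_image]
  exact h3.encard_le_eRk_of_subset (image_mono hI.subset)

lemma exists_lift (φ : A →ₐ[k] C) (s : Set A) :
    ∃ J ⊆ s, (AlgebraicIndependent.matroid k A).Indep J ∧ J.encard = rk k (φ '' s) ∧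
      ∀ y ∈ Algebra.adjoin k J, φ y = 0 → y = 0 := by
  obtain ⟨I, hI⟩ := (AlgebraicIndependent.matroid k C).exists_isBasis (φ '' s) (subset_univ _)
  have h0 : ∀ i : I, ∃ a ∈ s, φ a = i := fun i => hI.subset i.2
  choose v hv hφ using h0
  have h1 : AlgebraicIndependent k (φ ∘ v) := by
    have : φ ∘ v = ((↑) : I → C) := funext hφ
    rw [this]; exact hI.indep
  have h2 : AlgebraicIndependent k v := AlgebraicIndependent.of_comp φ h1
  refine ⟨range v, range_subset_iff.2 hv, h2.to_subtype_range, ?_, fun y hy h => ?_⟩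
  · rw [rk, hI.eRk_eq_encard, ← image_univ, h2.injective.injOn.encard_image, encard_univ]
    rfl
  · rw [Algebra.adjoin_range_eq_range_aeval] at hy
    obtain ⟨P, rfl⟩ := hy
    have h3 : aeval (φ ∘ v) P = 0 := by
      rw [← h]
      exact (comp_aeval_apply v φ P).symm
    have h4 : P = 0 := h1 (h3.trans (map_zero _).symm)
    simp [h4]

lemma rk_image_le (φ : A →ₐ[k] C) (s : Set A) : rk k (φ '' s) ≤ rk k s := by
  obtain ⟨J, hJ, hi, he, -⟩ := exists_lift φ s
  rw [← he]
  exact hi.encard_le_eRk_of_subset hJ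

lemma rk_image_lt (φ : A →ₐ[k] C) {s : Set A} {y : A} (hy : y ∈ cl k s) (h0 : y ≠ 0)
    (h : φ y = 0) : rk k (φ '' s) + 1 ≤ rk k s := by
  obtain ⟨J, hJ, hi, he, hin⟩ := exists_lift φ s
  have h1 : y ∉ cl k J := fun h1 => by
    obtain ⟨r, hr, z, hz⟩ := (mem_cl.1 h1).exists_nonzero_dvd (mem_nonZeroDivisors_of_ne_zero h0)
    refine hr (Subtype.ext (hin r r.2 ?_))
    have : (r : A) = y * z := hz
    rw [this, map_mul, h, zero_mul]
  have h2 : rk k J = J.encard := hi.eRk_eq_encard
  rw [← he, ← h2, ← rk_insert h1]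
  refine rk_le_of_cl fun x hx => ?_
  rcases hx with rfl | hx
  · exact hy
  · exact subset_cl (hJ hx)

end

lemma inv_mem_cl {k A : Type*} [Field k] [Field A] [Algebra k A] {s : Set A} {x : A}
    (h : x ∈ cl k s) : x⁻¹ ∈ cl k s :=
  mem_cl.2 (mem_cl.1 h).inv

end Pool.Agent.MP_249f74_an.H97
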