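import Mathlib
import Pool.Agent.MP_249f74_an.H97.Rank

/-!
Polynomial lemmas: homogenisation along a line, the isotropic quadric, the chain rule for
derivations, Zariski tangent spaces, the simple factor through a generic point.
-/

open Set MvPolynomial

namespace Pool.Agent.MP_249f74_an.H97

section Homog

variable {k : Type*} [CommRing k] {ι : Type*} {A : Type*} [CommRing A] [Algebra k A]

lemma aeval_smul_homog {H : MvPolynomial ι k} {j : ℕ} (h : H.IsHomogeneous j) (s : A)
    (y : ι → A) : aeval (fun i => s * y i) H = s ^ j * aeval y H := by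
  conv_lhs => rw [H.as_sum]
  conv_rhs => rw [H.as_sum]
  rw [map_sum, map_sum, Finset.mul_sum]
  refine Finset.sum_congr rfl fun m hm => ?_
  rw [aeval_monomial, aeval_monomial, h.degree_eq_sum_deg_support hm]
  simp only [Finsupp.prod, mul_pow, Finset.prod_mul_distrib, Finset.prod_pow_eq_pow_sum]
  ring

/-- The top degree form. -/
noncomputable def top (P : MvPolynomial ι k) : MvPolynomial ι k :=
  homogeneousComponent P.totalDegree P

/-- The polynomial `s ^ D * P (a + b / s)`. -/
noncomputable def hz (P : MvPolynomial ι k) (s : A) (a b : ι → A) : A :=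
  ∑ j ∈ Finset.range (P.totalDegree + 1),
    s ^ (P.totalDegree - j) * aeval (fun i => s * a i + b i) (homogeneousComponent j P)

lemma map_hz {A' : Type*} [CommRing A'] [Algebra k A'] (ψ : A →ₐ[k] A') (P : MvPolynomial ι k)
    (s : A) (a b : ι → A) : ψ (hz P s a b) = hz P (ψ s) (fun i => ψ (a i)) (fun i => ψ (b i)) := by
  simp only [hz, map_sum, map_mul, map_pow, comp_aeval_apply, map_add]

lemma hz_zero (P : MvPolynomial ι k) (a b : ι → A) : hz P 0 a b = aeval b (top P) := by
  rw [hz, Finset.sum_range_succ, Finset.sum_eq_zero]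
  · simp [top]
  · intro j hj
    rw [zero_pow (by have := Finset.mem_range.1 hj; omega), zero_mul]

lemma hz_eq (P : MvPolynomial ι k) {s r : A} (h : s * r = 1) (a b : ι → A) :
    hz P s a b = s ^ P.totalDegree * aeval (fun i => a i + r * b i) P := by
  conv_rhs => rw [← P.sum_homogeneousComponent]
  rw [hz, map_sum, P.sum_homogeneousComponent, Finset.mul_sum]
  refine Finset.sum_congr rfl fun j hj => ?_
  have h1 : (fun i => s * a i + b i) = fun i => s * (a i + r * b i) := by
    funext i
    rw [mul_add, ← mul_assoc, h, one_mul]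
  rw [h1, aeval_smul_homog (homogeneousComponent_isHomogeneous j P), ← mul_assoc, ← pow_add,
    Nat.sub_add_cancel (Nat.lt_succ_iff.1 (Finset.mem_range.1 hj))]

lemma der_aeval [Fintype ι] (D : Derivation k A A) (x : ι → A) (P : MvPolynomial ι k) :
    D (aeval x P) = ∑ l, aeval x (pderiv l P) * D (x l) := by
  classical
  induction P using MvPolynomial.induction_on with
  | C a => simp
  | add p q hp hq => simp [hp, hq, add_mul, Finset.sum_add_distrib]
  | mul_X p i hp =>
    have : ∀ l, aeval x (pderiv l (p * X i)) * D (x l) =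
        x i * (aeval x (pderiv l p) * D (x l)) + if l = i then aeval x p * D (x i) else 0 := by
      intro l
      by_cases h : l = i
      · subst h
        simp [Derivation.leibniz]
        ring
      · simp [Derivation.leibniz, pderiv_X_of_ne (Ne.symm h), h]
        ring
    simp only [this, Finset.sum_add_distrib, ← Finset.mul_sum, ← hp]
    simp [Derivation.leibniz]
    ring

end Homog

section Field

variable {k : Type*} [Field k]

/-- The isotropic quadric. -/
noncomputable def Q (k : Type*) [CommRing k] (ι : Type*) [Fintype ι] : MvPolynomial ι k :=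
  ∑ i, X i ^ 2

lemma aeval_Q {ι : Type*} [Fintype ι] {A : Type*} [CommRing A] [Algebra k A] (x : ι → A) :
    aeval x (Q k ι) = ∑ i, x i ^ 2 := by simp [Q]

lemma prime_Q [Algebra k ℝ] {n : ℕ} (hn : 1 ≤ n) : Prime (Q k (Fin (n + 1))) := by
  have he : finSuccEquiv k n (Q k (Fin (n + 1))) =
      Polynomial.X ^ 2 + Polynomial.C (Q k (Fin n)) := by
    simp [Q, Fin.sum_univ_succ, finSuccEquiv_X_zero, finSuccEquiv_X_succ]
  have hm : (Polynomial.X ^ 2 + Polynomial.C (Q k (Fin n))).Monic :=
    Polynomial.monic_X_pow_add_C _ two_ne_zero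
  have hd : (Polynomial.X ^ 2 + Polynomial.C (Q k (Fin n))).natDegree = 2 :=
    Polynomial.natDegree_X_pow_add_C
  have hi : Irreducible (Polynomial.X ^ 2 + Polynomial.C (Q k (Fin n))) := by
    rw [hm.irreducible_iff_roots_eq_zero_of_degree_le_three hd.ge (by omega),
      Multiset.eq_zero_iff_forall_notMem]
    intro r hr
    have h1 := (Polynomial.mem_roots hm.ne_zero).1 hr
    simp only [Polynomial.IsRoot.def, Polynomial.eval_add, Polynomial.eval_pow, Polynomial.eval_X,
      Polynomial.eval_C] at h1
    have h2 := congrArg (aeval (fun _ : Fin n => (1 : ℝ))) h1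
    rw [map_add, map_pow, aeval_Q, map_zero] at h2
    simp only [one_pow, Finset.sum_const, Finset.card_univ, Fintype.card_fin, nsmul_eq_mul,
      mul_one] at h2
    have : (1 : ℝ) ≤ n := by exact_mod_cast hn
    nlinarith [sq_nonneg (aeval (fun _ : Fin n => (1 : ℝ)) r)]
  rw [← he] at hi
  exact ((MulEquiv.irreducible_iff (finSuccEquiv k n)).1 hi).prime

variable {ι : Type*} [Fintype ι] {C : Type*} [CommRing C] [IsDomain C] [Algebra k C]

/-- At a point of rank at least `card ι - 1` on a prime hypersurface the vanishing ideal is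
principal. -/
lemma dvd_of_generic {g : MvPolynomial ι k} (hg : Prime g) {x : ι → C} (hx : aeval x g = 0)
    (hr : (Fintype.card ι : ℕ∞) ≤ rk k (range x) + 1) {T : MvPolynomial ι k}
    (hT : aeval x T = 0) : g ∣ T := by
  by_contra hn
  have hp : (Ideal.span {g}).IsPrime := (Ideal.span_singleton_prime hg.ne_zero).2 hg
  let B := MvPolynomial ι k ⧸ Ideal.span {g}
  let φ : B →ₐ[k] C := Ideal.Quotient.liftₐ (Ideal.span {g}) (aeval x) fun a ha => by
    obtain ⟨b, rfl⟩ := Ideal.mem_span_singleton'.1 ha
    rw [map_mul, hx, mul_zero]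
  let y : ι → B := fun i => Ideal.Quotient.mkₐ k _ (X i)
  have hy : ∀ R : MvPolynomial ι k, aeval y R = Ideal.Quotient.mkₐ k _ R := fun R => by
    rw [← comp_aeval_apply, aeval_X_left_apply]
  have h1 : rk k (range y) + 1 ≤ Fintype.card ι := by
    refine rk_range_lt hg.ne_zero ?_
    rw [hy]
    exact Ideal.Quotient.eq_zero_iff_mem.2 (Ideal.mem_span_singleton_self g)
  have h2 : rk k (φ '' range y) + 1 ≤ rk k (range y) := by
    refine rk_image_lt φ (aeval_mem_cl (x := y) (fun i => subset_cl (mem_range_self i)) T) ?_ ?_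
    · rw [hy]
      exact fun h => hn (Ideal.mem_span_singleton.1 (Ideal.Quotient.eq_zero_iff_mem.1 h))
    · rw [hy]
      exact hT
  have h3 : φ '' range y = range x := by
    rw [← range_comp]
    congr 1
    funext i
    exact aeval_X x i
  rw [h3] at h2
  generalize rk k (range x) = a at *
  generalize rk k (range y) = b at *
  generalize Fintype.card ι = c at *
  enat_to_nat
  omega

/-- A root of a polynomial along a line in a direction where the top form does not vanish is
algebraic. -/
lemma root_mem_cl {C : Type*} [Field C] [Algebra k C] {P : MvPolynomial ι k} {a b : ι → C} {r : C}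
    {s : Set C} (ha : ∀ i, a i ∈ cl k s) (hb : ∀ i, b i ∈ cl k s) (ht : aeval b (top P) ≠ 0)
    (h : aeval (fun i => a i + r * b i) P = 0) : r ∈ cl k s := by
  rcases eq_or_ne r 0 with rfl | hr
  · exact zero_mem _
  let S := Algebra.adjoin k (range a ∪ range b)
  let a' : ι → S := fun i => ⟨a i, Algebra.subset_adjoin (Or.inl ⟨i, rfl⟩)⟩
  let b' : ι → S := fun i => ⟨b i, Algebra.subset_adjoin (Or.inr ⟨i, rfl⟩)⟩
  let G : Polynomial S := hz P Polynomial.X (fun i => Polynomial.C (a' i))
    (fun i => Polynomial.C (b' i))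
  have hG : ∀ z : C, Polynomial.aeval z G = hz P z a b := fun z => by
    have := map_hz ((Polynomial.aeval z : Polynomial S →ₐ[S] C).restrictScalars k) P
      Polynomial.X (fun i => Polynomial.C (a' i)) (fun i => Polynomial.C (b' i))
    simpa [a', b'] using this
  have h1 : IsAlgebraic S r⁻¹ := by
    refine ⟨G, fun h0 => ht ?_, ?_⟩
    · rw [← hz_zero P a b, ← hG, h0, map_zero]
    · rw [hG, hz_eq P (inv_mul_cancel₀ hr), h, mul_zero]
  have h2 : r ∈ cl k (range a ∪ range b) := by
    simpa using inv_mem_cl (mem_cl.2 h1)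
  refine cl_le ?_ h2
  rintro x (⟨i, rfl⟩ | ⟨i, rfl⟩)
  · exact ha i
  · exact hb i

end Field

end Pool.Agent.MP_249f74_an.H97
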