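import Mathlib
import Pool.Agent.MP_249f74_an.H97.Poly
import Pool.Agent.MP_249f74_an.H97.Der

/-!
The algebraic core: a closed chain of reflections in an algebraic hypersurface whose top form is
not divisible by the isotropic quadric cannot start at a generic point of the phase space.
-/

open Set MvPolynomial

namespace Pool.Agent.MP_249f74_an.H97

variable {k : Type*} [Field k] [Algebra k ℝ]

section Place

variable {B C : Type*} [CommRing B] [IsDomain B] [Field C] [Algebra k B] [Algebra k C]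

/-- A place of the real numbers over `k`. -/
structure Pl (ι : B →ₐ[k] ℝ) (φ : B →ₐ[k] C) : Prop where
  inj : Function.Injective ι
  val : ∀ r : ℝ, (∃ b, ι b = r) ∨ ∃ s, ι s * r = 1 ∧ φ s = 0

variable {ι : B →ₐ[k] ℝ} {φ : B →ₐ[k] C} {n : ℕ} {P : MvPolynomial (Fin (n + 1)) k}

lemma Pl.unit (h : Pl ι φ) {b : B} (hb : φ b ≠ 0) : ∃ m, b * m = 1 := by
  have h0 : ι b ≠ 0 := fun h0 => hb (by rw [h.inj (h0.trans (map_zero ι).symm), map_zero])
  rcases h.val (ι b)⁻¹ with ⟨m, hm⟩ | ⟨s, h1, h2⟩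
  · exact ⟨m, h.inj (by rw [map_mul, hm, mul_inv_cancel₀ h0, map_one])⟩
  · rw [mul_inv_eq_one₀ h0] at h1
    exact absurd (h.inj h1 ▸ h2) hb

lemma rk_left {x y : Fin (n + 1) → C} (hg : (2 * n : ℕ) ≤ rk k (range x ∪ range y))
    {T : MvPolynomial (Fin (n + 1)) k} (hT : T ≠ 0) (hy : aeval y T = 0) :
    (n : ℕ∞) ≤ rk k (range x) := by
  have h1 := rk_range_lt hT hy
  have h2 := rk_union_le (k := k) (range x) (range y)
  rw [Fintype.card_fin] at h1
  generalize rk k (range x) = a at *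
  generalize rk k (range y) = b at *
  generalize rk k (range x ∪ range y) = c at *
  enat_to_nat
  omega

lemma ne_zero_of_top (hP : ¬ Q k (Fin (n + 1)) ∣ top P) : P ≠ 0 := by
  rintro rfl
  exact hP (by simp [top])

lemma Pl.move (h : Pl ι φ) (hn : 1 ≤ n) (hP : ¬ Q k (Fin (n + 1)) ∣ top P)
    {a w : Fin (n + 1) → B} (hw : ∑ j, φ (w j) ^ 2 = 0) (ha : aeval a P = 0)
    (hg : (2 * n : ℕ) ≤ rk k (range (fun j => φ (a j)) ∪ range fun j => φ (w j))) {r : ℝ}
    (hr : aeval (fun j => ι (a j) + r * ι (w j)) P = 0) :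
    ∃ b, ι b = r ∧
      (2 * n : ℕ) ≤ rk k (range (fun j => φ (a j + b * w j)) ∪ range fun j => φ (w j)) := by
  have ha' : aeval (fun j => φ (a j)) P = 0 := by rw [← comp_aeval_apply, ha, map_zero]
  have h1 : (n : ℕ∞) ≤ rk k (range fun j => φ (w j)) :=
    rk_left (union_comm _ _ ▸ hg) (ne_zero_of_top hP) ha'
  have ht : aeval (fun j => φ (w j)) (top P) ≠ 0 := fun h0 =>
    hP (dvd_of_generic (prime_Q hn) (by rw [aeval_Q, hw])
      (by rw [Fintype.card_fin]; push_cast; gcongr) h0)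
  rcases h.val r with ⟨b, hb⟩ | ⟨s, h2, h3⟩
  · refine ⟨b, hb, hg.trans (rk_le_of_cl ?_)⟩
    have h4 : -φ b ∈ cl k (range (fun j => φ (a j + b * w j)) ∪ range fun j => φ (w j)) := by
      refine root_mem_cl (a := fun j => φ (a j + b * w j)) (b := fun j => φ (w j))
        (fun i => subset_cl (Or.inl ⟨i, rfl⟩)) (fun i => subset_cl (Or.inr ⟨i, rfl⟩)) ht ?_
      rw [← ha']
      congr 2
      funext j
      rw [map_add, map_mul]
      ring
    rintro x (⟨i, rfl⟩ | ⟨i, rfl⟩)
    · have h5 : φ (a i) = φ (a i + b * w i) + -φ b * φ (w i) := by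
        rw [map_add, map_mul]
        ring
      simp only
      rw [h5]
      exact add_mem (subset_cl (Or.inl ⟨i, rfl⟩)) (mul_mem h4 (subset_cl (Or.inr ⟨i, rfl⟩)))
    · exact subset_cl (Or.inr ⟨i, rfl⟩)
  · have h4 : hz P s a w = 0 := h.inj (by rw [map_hz, hz_eq P h2, hr, mul_zero, map_zero])
    have h5 := map_hz φ P s a w
    rw [h4, map_zero, h3, hz_zero] at h5
    exact absurd h5.symm ht

lemma Pl.reflect (h : Pl ι φ) (hn : 1 ≤ n) (hP : P ≠ 0)
    {a w : Fin (n + 1) → B} (hw : ∑ j, φ (w j) ^ 2 = 0) (ha : aeval a P = 0)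
    (hg : (2 * n : ℕ) ≤ rk k (range (fun j => φ (a j)) ∪ range fun j => φ (w j)))
    {g : MvPolynomial (Fin (n + 1)) k} {N : Fin (n + 1) → ℝ}
    (hN : ∀ l, aeval (fun j => ι (a j)) (pderiv l g) = N l) (hN0 : ∃ l, N l ≠ 0) :
    ∃ w' : Fin (n + 1) → B,
      (∀ j, ι (w' j) = ι (w j) - 2 * (∑ l, ι (w l) * N l) / (∑ l, N l ^ 2) * N j) ∧
      (2 * n : ℕ) ≤ rk k (range (fun j => φ (a j)) ∪ range fun j => φ (w' j)) := by
  have h1 : (n : ℕ∞) ≤ rk k (range fun j => φ (a j)) :=
    rk_left hg (prime_Q hn).ne_zero (by rw [aeval_Q, hw])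
  obtain ⟨v, hv⟩ : ∃ v : Fin (n + 1) → B, ∀ l, v l = aeval a (pderiv l g) := ⟨_, fun _ => rfl⟩
  have hvN : ∀ l, ι (v l) = N l := fun l => by rw [hv, comp_aeval_apply, hN]
  have hpos : 0 < ∑ l, N l ^ 2 := by
    obtain ⟨l, hl⟩ := hN0
    exact Finset.sum_pos' (fun _ _ => sq_nonneg _) ⟨l, Finset.mem_univ _, by positivity⟩
  have hy : ι (∑ l, v l ^ 2) = ∑ l, N l ^ 2 := by simp [hvN]
  have hy0 : φ (∑ l, v l ^ 2) ≠ 0 := fun h0 => by
    have h2 := rk_image_lt φ (s := range a) (y := ∑ l, v l ^ 2)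
      (sum_mem fun l _ => pow_mem (hv l ▸ aeval_mem_cl (fun i => subset_cl (mem_range_self i)) _) 2)
      (fun h3 => hpos.ne' (by rw [← hy, h3, map_zero])) h0
    have h3 := rk_range_lt hP ha
    rw [← range_comp] at h2
    rw [Fintype.card_fin] at h3
    change rk k (range fun j => φ (a j)) + 1 ≤ _ at h2
    generalize rk k (range fun j => φ (a j)) = c at *
    generalize rk k (range a) = d at *
    enat_to_nat
    omega
  obtain ⟨m, hm⟩ := h.unit hy0
  have hm1 : ι m = (∑ l, N l ^ 2)⁻¹ := by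
    rw [← hy]
    exact eq_inv_of_mul_eq_one_right (by rw [← map_mul, hm, map_one])
  have hm2 : φ m = (φ (∑ l, v l ^ 2))⁻¹ :=
    eq_inv_of_mul_eq_one_right (by rw [← map_mul, hm, map_one])
  obtain ⟨w', hw'⟩ : ∃ w' : Fin (n + 1) → B, ∀ j, w' j = w j - 2 * (∑ l, w l * v l) * m * v j :=
    ⟨_, fun _ => rfl⟩
  refine ⟨w', fun j => ?_, hg.trans (rk_le_of_cl ?_)⟩
  · rw [hw', div_eq_mul_inv, ← hm1]
    simp [hvN, map_ofNat]
  have hs : ∑ l, w' l * v l = -∑ l, w l * v l := by
    have : ∀ l, w' l * v l = w l * v l - 2 * (∑ l, w l * v l) * m * v l ^ 2 := fun l => by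
      rw [hw']; ring
    simp only [this, Finset.sum_sub_distrib, ← Finset.mul_sum]
    linear_combination (-2 * ∑ l, w l * v l) * hm
  set s := range (fun j => φ (a j)) ∪ range fun j => φ (w' j)
  have hv' : ∀ l, φ (v l) ∈ cl k s := fun l => by
    rw [hv, comp_aeval_apply]
    exact aeval_mem_cl (fun i => subset_cl (mem_union_left _ (mem_range_self i))) _
  have hw2 : ∀ l, φ (w' l) ∈ cl k s := fun l => subset_cl (Or.inr ⟨l, rfl⟩)
  rintro x (⟨i, rfl⟩ | ⟨i, rfl⟩)
  · exact subset_cl (Or.inl ⟨i, rfl⟩)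
  · have h5 : w i = w' i - 2 * (∑ l, w' l * v l) * m * v i := by
      rw [hs, hw']
      ring
    simp only
    rw [h5]
    simp only [map_sub, map_mul, map_sum, hm2, map_pow, map_ofNat]
    exact sub_mem (hw2 i) (mul_mem (mul_mem (mul_mem (ofNat_mem _ 2)
      (sum_mem fun l _ => mul_mem (hw2 l) (hv' l)))
      (inv_mem_cl (sum_mem fun l _ => pow_mem (hv' l) 2))) (hv' i))

end Place

lemma exists_place {s : Set ℝ} {z : ℝ} (hz : z ∉ cl k s) : ∃ R : ValuationSubring ℝ,
    (∀ x ∈ IntermediateField.adjoin k s, x ∈ R) ∧ z ∈ R.nonunits := by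
  let F := IntermediateField.adjoin k s
  let A := (Algebra.adjoin F {z}).toSubring
  have hzA : z ∈ A := Algebra.subset_adjoin rfl
  have hI : Ideal.span {(⟨z, hzA⟩ : A)} ≠ ⊤ := by
    rw [Ne, Ideal.span_singleton_eq_top, isUnit_iff_exists_inv]
    rintro ⟨⟨y, hy⟩, h1⟩
    have h2 : z * y = 1 := congrArg Subtype.val h1
    have hy' : y ∈ Algebra.adjoin F {z} := hy
    rw [Algebra.adjoin_singleton_eq_range_aeval] at hy'
    obtain ⟨q, rfl⟩ := hy'
    refine hz (mem_cl.2 (IntermediateField.isAlgebraic_adjoin_iff.1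
      ⟨Polynomial.X * q - 1, fun h0 => ?_, ?_⟩))
    · simpa using congrArg (Polynomial.eval 0) h0
    · rw [map_sub, map_mul, Polynomial.aeval_X, map_one, sub_eq_zero]
      exact h2
  obtain ⟨R, h1, h2⟩ := Ideal.image_subset_nonunits_valuationSubring _ hI
  exact ⟨R, fun x hx => h1 ((Algebra.adjoin F {z}).algebraMap_mem ⟨x, hx⟩),
    h2 ⟨_, Ideal.mem_span_singleton_self _, rfl⟩⟩

lemma exists_notMem_cl [Countable k] {ι : Type*} [Finite ι] (x : ι → ℝ) :
    ∃ z, z ∉ cl k (range x) := by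
  have h0 : Countable (MvPolynomial ι k) := by
    rw [← Cardinal.mk_le_aleph0_iff]
    refine MvPolynomial.cardinalMk_le_max_lift.trans ?_
    simp
  have h1 : Countable (Algebra.adjoin k (range x)) := by
    rw [Algebra.adjoin_range_eq_range_aeval]
    exact (countable_range _).to_subtype
  by_contra h
  push Not at h
  exact Cardinal.not_countable_real
    ((Algebraic.countable (Algebra.adjoin k (range x)) ℝ).mono fun z _ => mem_cl.1 (h z))

/-- The starting place: the direction becomes a generic isotropic vector. -/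
lemma exists_start [Countable k] {n : ℕ} {P : MvPolynomial (Fin (n + 1)) k} (hP : P ≠ 0)
    {p u : Fin (n + 1) → ℝ} (hp : aeval p P = 0) (hu : ∑ j, u j ^ 2 = 1)
    (hg : (2 * n : ℕ) ≤ rk k (range p ∪ range u)) :
    ∃ (z : ℝ) (R : ValuationSubring ℝ), z ≠ 0 ∧ z ∈ R.nonunits ∧ (∀ j, z * u j ∈ R) ∧
      (∀ x ∈ IntermediateField.adjoin k (range p ∪ range fun j : Fin n => z * u j.succ), x ∈ R) ∧
      (2 * n : ℕ) ≤ rk k (range p ∪ range fun j : Fin n => z * u j.succ) := by
  obtain ⟨z, hz⟩ := exists_notMem_cl (k := k) (Sum.elim p u)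
  rw [Sum.range_eq] at hz
  change z ∉ cl k (range p ∪ range u) at hz
  have hz0 : z ≠ 0 := fun h => hz (h ▸ zero_mem _)
  set s := range p ∪ range fun j : Fin n => z * u j.succ with hs
  have h1 : rk k (insert z (range p ∪ range u)) ≤ rk k (insert z s) := by
    have hz1 : z ∈ cl k (insert z s) := subset_cl (mem_insert _ _)
    have h2 : ∀ j : Fin n, u j.succ ∈ cl k (insert z s) := fun j => by
      have := mul_mem (inv_mem_cl hz1)
        (subset_cl (mem_insert_of_mem z (mem_union_right (range p) (mem_range_self j))))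
      rwa [inv_mul_cancel_left₀ hz0] at this
    have h3 : u 0 ^ 2 ∈ cl k (insert z s) := by
      rw [Fin.sum_univ_succ, ← eq_sub_iff_add_eq] at hu
      rw [hu]
      exact sub_mem (one_mem _) (sum_mem fun j _ => pow_mem (h2 j) 2)
    refine rk_le_of_cl ?_
    rintro x (rfl | ⟨j, rfl⟩ | ⟨j, rfl⟩)
    · exact hz1
    · exact subset_cl (mem_insert_of_mem z (mem_union_left _ (mem_range_self j)))
    · refine Fin.cases ?_ h2 j
      exact mem_cl.2 ((mem_cl.1 h3).of_pow two_pos)
  have h2 : rk k s ≤ (2 * n : ℕ) := by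
    have h3 := rk_range_lt hP hp
    have h4 := rk_range_le (k := k) fun j : Fin n => z * u j.succ
    have h5 : rk k s ≤ _ := rk_union_le _ _
    rw [Fintype.card_fin] at h3 h4
    generalize rk k (range fun j : Fin n => z * u j.succ) = a at *
    generalize rk k (range p) = b at *
    generalize rk k s = c at *
    clear * - h3 h4 h5
    enat_to_nat
    omega
  rw [rk_insert hz] at h1
  have h3 : z ∉ cl k s := fun h => by
    have h4 : rk k (insert z s) ≤ rk k s := rk_le_of_cl <| by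
      rintro x (rfl | hx)
      · exact h
      · exact subset_cl hx
    generalize rk k (insert z s) = a at *
    generalize rk k (range p ∪ range u) = b at *
    generalize rk k s = c at *
    clear * - h1 h2 h4 hg
    enat_to_nat
    omega
  obtain ⟨R, h4, h5⟩ := exists_place h3
  have h6 : ∀ j : Fin n, z * u j.succ ∈ R := fun j =>
    h4 _ (IntermediateField.subset_adjoin _ _ (mem_union_right _ (mem_range_self j)))
  refine ⟨z, R, hz0, h5, fun j => ?_, h4, ?_⟩
  · refine Fin.cases ?_ h6 j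
    have h7 : (z * u 0) ^ 2 = z ^ 2 - ∑ j : Fin n, (z * u j.succ) ^ 2 := by
      rw [Fin.sum_univ_succ, ← eq_sub_iff_add_eq] at hu
      simp only [mul_pow, ← Finset.mul_sum, hu]
      ring
    have h8 : (z * u 0) ^ 2 ∈ R :=
      h7 ▸ sub_mem (pow_mem (R.nonunits_subset h5) 2) (sum_mem fun j _ => pow_mem (h6 j) 2)
    rcases R.mem_or_inv_mem (z * u 0) with h | h
    · exact h
    · rcases eq_or_ne (z * u 0) 0 with h0 | h0
      · exact h0 ▸ zero_mem _
      · have := mul_mem h8 h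
        rwa [pow_two, mul_inv_cancel_right₀ h0] at this
  · rw [rk_insert h3] at h1
    change _ ≤ rk k s
    generalize rk k (range p ∪ range u) = b at *
    generalize rk k s = c at *
    clear * - h1 h2 hg
    enat_to_nat
    omega

lemma der_length {n N : ℕ} {p u ν : ℕ → Fin n → ℝ} {t c : ℕ → ℝ}
    (hu : ∀ i < N, ∑ j, u i j ^ 2 = 1) (hmv : ∀ i < N, ∀ j, p (i + 1) j = p i j + t i * u i j)
    (hrf : ∀ i < N, ∀ j, u (i + 1) j = u i j - c i * ν (i + 1) j)
    (hpN : p N = p 0) (huN : u N = u 0) (D : Derivation k ℝ ℝ)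
    (hν : ∀ i < N, ∑ j, ν (i + 1) j * D (p (i + 1) j) = 0) :
    D (∑ i ∈ Finset.range N, t i) = 0 := by
  have h1 : ∀ i ∈ Finset.range N, D (t i) =
      ∑ j, u (i + 1) j * D (p (i + 1) j) - ∑ j, u i j * D (p i j) := by
    intro i hi
    rw [Finset.mem_range] at hi
    have h2 := congrArg D (hu i hi)
    simp only [map_sum, Derivation.leibniz_pow, Derivation.map_one_eq_zero, smul_eq_mul,
      nsmul_eq_mul, Nat.cast_ofNat, Nat.add_one_sub_one, pow_one, ← Finset.mul_sum] at h2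
    have h3 : ∀ j, u (i + 1) j * D (p (i + 1) j) = u i j * D (p i j) + t i * (u i j * D (u i j)) +
        D (t i) * u i j ^ 2 - c i * (ν (i + 1) j * D (p (i + 1) j)) := fun j => by
      have h4 := congrArg D (hmv i hi j)
      simp only [map_add, Derivation.leibniz, smul_eq_mul] at h4
      rw [hrf i hi j]
      linear_combination u i j * h4
    simp only [h3, Finset.sum_sub_distrib, Finset.sum_add_distrib, ← Finset.mul_sum, hν i hi,
      hu i hi]
    linear_combination (-t i / 2) * h2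
  rw [map_sum, Finset.sum_congr rfl h1,
    Finset.sum_range_sub (fun i => ∑ j, u i j * D (p i j)), hpN, huN, sub_self]

theorem core [Countable k] {n : ℕ} (hn : 1 ≤ n) {P : MvPolynomial (Fin (n + 1)) k}
    (hP : ¬ Q k (Fin (n + 1)) ∣ top P) {N : ℕ} (hN : 1 ≤ N) {p u ν : ℕ → Fin (n + 1) → ℝ}
    {t : ℕ → ℝ} (hp : ∀ i < N, aeval (p i) P = 0) (hu : ∀ i < N, ∑ j, u i j ^ 2 = 1)
    (ht : ∀ i < N, 0 < t i) (hmv : ∀ i < N, ∀ j, p (i + 1) j = p i j + t i * u i j)
    (hrf : ∀ i < N, ∀ j, u (i + 1) j = u i j -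
      2 * (∑ l, u i l * ν (i + 1) l) / (∑ l, ν (i + 1) l ^ 2) * ν (i + 1) j)
    (hpN : p N = p 0) (huN : u N = u 0)
    (hν : ∀ i < N, (n : ℕ∞) ≤ rk k (range (p (i + 1))) →
      ∃ (g : MvPolynomial (Fin (n + 1)) k) (c : ℝ), c ≠ 0 ∧ aeval (p (i + 1)) g = 0 ∧
        (∃ l, ν (i + 1) l ≠ 0) ∧ ∀ l, aeval (p (i + 1)) (pderiv l g) = c * ν (i + 1) l) :
    rk k (range (p 0) ∪ range (u 0)) < (2 * n : ℕ) := by
  by_contra hg
  rw [not_lt] at hg
  have hP0 := ne_zero_of_top hP
  obtain ⟨z, R, hz0, hz, hzu, hF, hg0⟩ := exists_start hP0 (hp 0 hN) (hu 0 hN) hg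
  set s := range (p 0) ∪ range fun j : Fin n => z * u 0 j.succ with hs
  letI : Algebra k R := ((algebraMap k ℝ).codRestrict R.toSubring fun c =>
    hF _ ((IntermediateField.adjoin k s).algebraMap_mem c)).toAlgebra
  let ι : R →ₐ[k] ℝ := { R.subtype with commutes' := fun _ => rfl }
  let φ : R →ₐ[k] IsLocalRing.ResidueField R :=
    { IsLocalRing.residue R with commutes' := fun _ => rfl }
  have hφ : ∀ b : R, φ b = 0 ↔ (b : ℝ) ∈ R.nonunits := fun b =>
    (IsLocalRing.residue_eq_zero_iff b).trans ValuationSubring.coe_mem_nonunits_iff.symm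
  have hpl : Pl ι φ := by
    refine ⟨Subtype.val_injective, fun r => ?_⟩
    by_cases hr : r ∈ R
    · exact Or.inl ⟨⟨r, hr⟩, rfl⟩
    · have h0 : r ≠ 0 := fun h => hr (h ▸ zero_mem _)
      refine Or.inr ⟨⟨r⁻¹, (R.mem_or_inv_mem r).resolve_left hr⟩, inv_mul_cancel₀ h0, ?_⟩
      rw [hφ, R.mem_nonunits_iff_or]
      exact Or.inr (by simpa using hr)
  obtain ⟨e, he⟩ : ∃ e : R, ι e = z := ⟨⟨z, R.nonunits_subset hz⟩, rfl⟩
  have he0 : φ e = 0 := (hφ e).2 (by rwa [← he] at hz)
  have hp' : ∀ i < N, aeval (p (i + 1)) P = 0 := fun i hi => by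
    rcases (Nat.succ_le_of_lt hi).lt_or_eq with h | h
    · exact hp _ h
    · rw [show i + 1 = N from h, hpN]
      exact hp 0 hN
  have key : ∀ i ≤ N, (∃ a w : Fin (n + 1) → R, (∀ j, ι (a j) = p i j) ∧
      (∀ j, ι (w j) = z * u i j) ∧
      (2 * n : ℕ) ≤ rk k (range (fun j => φ (a j)) ∪ range fun j => φ (w j))) ∧
      (∃ b, ι (e * b) = ∑ m ∈ Finset.range i, t m) ∧
      ∀ m < i, (n : ℕ∞) ≤ rk k (range (p (m + 1))) := by
    intro i
    induction i with
    | zero =>
      intro _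
      refine ⟨?_, ⟨0, by simp⟩, fun m hm => absurd hm (Nat.not_lt_zero _)⟩
      let a : Fin (n + 1) → R := fun j => ⟨p 0 j, hF _
        (IntermediateField.subset_adjoin _ _ (mem_union_left _ (mem_range_self j)))⟩
      let w : Fin (n + 1) → R := fun j => ⟨z * u 0 j, hzu j⟩
      refine ⟨a, w, fun _ => rfl, fun _ => rfl, hg0.trans ?_⟩
      have h1 : ι '' (range a ∪ range fun j : Fin n => w j.succ) = s := by
        rw [image_union, ← range_comp, ← range_comp]
        rfl
      have h2 : InjOn φ (Algebra.adjoin k (range a ∪ range fun j : Fin n => w j.succ)) := by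
        intro x hx y hy hxy
        have h3 : ι (x - y) ∈ IntermediateField.adjoin k s := by
          apply IntermediateField.algebra_adjoin_le_adjoin
          rw [← h1, ← AlgHom.map_adjoin]
          exact ⟨_, Subalgebra.sub_mem _ hx hy, rfl⟩
        have h4 := (hφ (x - y)).1 (by rw [map_sub, hxy, sub_self])
        rcases R.mem_nonunits_iff_or.1 h4 with h | h
        · exact sub_eq_zero.1 (Subtype.ext h)
        · exact absurd (hF _ (inv_mem h3)) h
      rw [← h1]
      refine (rk_image_le ι _).trans ((rk_le_image φ h2).trans (rk_mono ?_))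
      rintro _ ⟨_, ⟨j, rfl⟩ | ⟨j, rfl⟩, rfl⟩
      · exact Or.inl ⟨j, rfl⟩
      · exact Or.inr ⟨j.succ, rfl⟩
    | succ i ih =>
      intro hi
      have hi' : i < N := hi
      obtain ⟨⟨a, w, ha, hw, hg1⟩, ⟨b, hb⟩, hr⟩ := ih hi'.le
      have hw0 : ∑ j, φ (w j) ^ 2 = 0 := by
        have h1 : ∑ j, w j ^ 2 = e ^ 2 := hpl.inj (by
          simp only [map_sum, map_pow, hw, he, mul_pow, ← Finset.mul_sum, hu i hi', mul_one])
        simpa [he0] using congrArg φ h1
      have ha0 : aeval a P = 0 := hpl.inj (by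
        rw [comp_aeval_apply, funext ha, map_zero]
        exact hp i hi')
      have h1 : ∀ j, ι (a j) + t i / z * ι (w j) = p (i + 1) j := fun j => by
        rw [ha, hw, hmv i hi']
        field_simp
      obtain ⟨r, hr1, hg2⟩ := hpl.move hn hP hw0 ha0 hg1 (r := t i / z)
        (by rw [funext h1]; exact hp' i hi')
      have h2 : ∀ j, ι (a j + r * w j) = p (i + 1) j := fun j => by
        rw [map_add, map_mul, hr1, h1]
      have ha1 : aeval (fun j => a j + r * w j) P = 0 := hpl.inj (by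
        rw [comp_aeval_apply, funext h2, map_zero]
        exact hp' i hi')
      have h3 : (n : ℕ∞) ≤ rk k (range (p (i + 1))) := by
        refine (rk_left hg2 (prime_Q hn).ne_zero (by rw [aeval_Q, hw0])).trans ?_
        have h4 := (rk_image_le φ (range fun j => a j + r * w j)).trans
          (rk_le_image ι hpl.inj.injOn)
        rwa [← range_comp, ← range_comp, show ι ∘ (fun j => a j + r * w j) = p (i + 1) from
          funext h2] at h4
      obtain ⟨g, c, hc, -, ⟨l, hl⟩, hgν⟩ := hν i hi' h3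
      obtain ⟨w', hw', hg3⟩ := hpl.reflect hn hP0 hw0 ha1 hg2 (g := g)
        (N := fun l => c * ν (i + 1) l) (fun l => by rw [funext h2]; exact hgν l)
        ⟨l, mul_ne_zero hc hl⟩
      refine ⟨⟨_, w', h2, fun j => ?_, hg3⟩, ⟨b + r, ?_⟩, fun m hm => ?_⟩
      · have h4 : ∑ l, (c * ν (i + 1) l) ^ 2 = c ^ 2 * ∑ l, ν (i + 1) l ^ 2 := by
          simp only [mul_pow, Finset.mul_sum]
        have h5 : ∑ l, ι (w l) * (c * ν (i + 1) l) = z * c * ∑ l, u i l * ν (i + 1) l := by
          simp only [hw, Finset.mul_sum]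
          exact Finset.sum_congr rfl fun _ _ => by ring
        rw [hw', h4, h5, hw, hrf i hi']
        field_simp
      · rw [mul_add, map_add, hb, map_mul, he, hr1, Finset.sum_range_succ, mul_div_cancel₀ _ hz0]
      · rcases (Nat.lt_succ_iff.1 hm).lt_or_eq with h | rfl
        · exact hr m h
        · exact h3
  obtain ⟨-, ⟨b, hb⟩, hr⟩ := key N le_rfl
  have hL : 0 < ∑ m ∈ Finset.range N, t m :=
    Finset.sum_pos (fun m hm => ht m (Finset.mem_range.1 hm)) ⟨0, Finset.mem_range.2 hN⟩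
  have : CharZero k := (algebraMap k ℝ).charZero
  have halg : IsAlgebraic k (∑ m ∈ Finset.range N, t m) := by
    refine isAlgebraic_of_der fun D => der_length hu hmv hrf hpN huN D fun i hi => ?_
    obtain ⟨g, c, hc, h1, -, h2⟩ := hν i hi (hr i hi)
    have h3 := der_aeval D (p (i + 1)) g
    simp only [h1, map_zero, h2, mul_assoc, ← Finset.mul_sum] at h3
    exact (mul_eq_zero.1 h3.symm).resolve_left hc
  rw [← hb] at halg hL
  obtain ⟨c, hc, y, hy⟩ := ((isAlgebraic_algHom_iff ι hpl.inj).1 halg).exists_nonzero_dvd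
    (mem_nonZeroDivisors_of_ne_zero fun h => hL.ne' (by rw [h, map_zero]))
  have h1 := congrArg φ hy
  rw [AlgHom.commutes, map_mul, map_mul, he0, zero_mul, zero_mul] at h1
  exact hc ((map_eq_zero _).1 h1)

end Pool.Agent.MP_249f74_an.H97
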