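import Mathlib
import Pool.Agent.MP_249f74_an.H97.Poly
import Pool.Agent.MP_249f74_an.H69.Tangent

/-!
Points of small transcendence rank over a countable field form a set of small Hausdorff dimension;
the simple factor of a polynomial through a generic point of its zero set.
-/

open Set MvPolynomial Module
open scoped ENNReal

namespace Pool.Agent.MP_249f74_an.H97

variable {k : Type*} [Field k] [Algebra k ℝ] {ι : Type*} [Fintype ι]

/-- Directional derivative of a polynomial. -/
noncomputable def dv (x v : ι → ℝ) (F : MvPolynomial ι k) : ℝ := ∑ l, aeval x (pderiv l F) * v l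

lemma dv_C (x v : ι → ℝ) (a : k) : dv x v (C a : MvPolynomial ι k) = 0 := by simp [dv]

lemma dv_add (x v : ι → ℝ) (F G : MvPolynomial ι k) : dv x v (F + G) = dv x v F + dv x v G := by
  simp [dv, add_mul, Finset.sum_add_distrib]

lemma dv_mul (x v : ι → ℝ) (F G : MvPolynomial ι k) :
    dv x v (F * G) = aeval x F * dv x v G + aeval x G * dv x v F := by
  simp only [dv, Derivation.leibniz, smul_eq_mul, map_add, map_mul, add_mul,
    Finset.sum_add_distrib, Finset.mul_sum, mul_assoc]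

lemma dv_X (x v : ι → ℝ) (j : ι) : dv x v (X j : MvPolynomial ι k) = v j := by
  classical
  simp [dv, pderiv_X, Pi.single_apply, apply_ite]

lemma lift_adjoin (x : ι → ℝ) (J : Set ι) {a : ℝ} (ha : a ∈ Algebra.adjoin k (x '' J)) :
    ∃ F : MvPolynomial ι k, aeval x F = a ∧
      ∀ v : ι → ℝ, (∀ l ∈ J, v l = 0) → dv x v F = 0 := by
  induction ha using Algebra.adjoin_induction with
  | mem y hy =>
    obtain ⟨l, hl, rfl⟩ := hy
    exact ⟨X l, aeval_X _ _, fun v hv => by rw [dv_X, hv l hl]⟩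
  | algebraMap r => exact ⟨C r, aeval_C _ _, fun v _ => dv_C _ _ _⟩
  | add y z _ _ hy hz =>
    obtain ⟨F, rfl, hF⟩ := hy
    obtain ⟨G, rfl, hG⟩ := hz
    exact ⟨F + G, map_add _ _ _, fun v hv => by rw [dv_add, hF v hv, hG v hv, add_zero]⟩
  | mul y z _ _ hy hz =>
    obtain ⟨F, rfl, hF⟩ := hy
    obtain ⟨G, rfl, hG⟩ := hz
    exact ⟨F * G, map_mul _ _ _, fun v hv => by rw [dv_mul, hF v hv, hG v hv]; simp⟩

lemma lift_poly (x : ι → ℝ) (J : Set ι) {S : Type*} [CommRing S] [Algebra S ℝ]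
    (hS : ∀ a : S, algebraMap S ℝ a ∈ Algebra.adjoin k (x '' J)) (j : ι) (q : Polynomial S) :
    ∃ F : MvPolynomial ι k, aeval x F = Polynomial.aeval (x j) q ∧ ∀ v : ι → ℝ,
      (∀ l ∈ J, v l = 0) → dv x v F = Polynomial.aeval (x j) q.derivative * v j := by
  induction q using Polynomial.induction_on with
  | C a =>
    obtain ⟨F, h1, h2⟩ := lift_adjoin x J (hS a)
    exact ⟨F, by simpa using h1, fun v hv => by simpa using h2 v hv⟩
  | add p q hp hq =>
    obtain ⟨F, h1, h2⟩ := hp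
    obtain ⟨G, h3, h4⟩ := hq
    refine ⟨F + G, by rw [map_add, map_add, h1, h3], fun v hv => ?_⟩
    rw [dv_add, h2 v hv, h4 v hv, map_add, map_add, add_mul]
  | monomial n a h =>
    obtain ⟨F, h1, h2⟩ := h
    rw [pow_succ, ← mul_assoc]
    generalize Polynomial.C a * Polynomial.X ^ n = p at *
    refine ⟨F * X j, by rw [map_mul, map_mul, h1, aeval_X, Polynomial.aeval_X], fun v hv => ?_⟩
    rw [dv_mul, h2 v hv, dv_X, h1, aeval_X, Polynomial.derivative_mul]
    simp only [map_add, map_mul, Polynomial.aeval_X, Polynomial.derivative_X, map_one]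
    ring

lemma exists_sep {S : Type*} [CommRing S] [Algebra S ℝ]
    (hS : Function.Injective (algebraMap S ℝ)) {y : ℝ} (h : IsAlgebraic S y) :
    ∃ q : Polynomial S, Polynomial.aeval y q = 0 ∧ Polynomial.aeval y q.derivative ≠ 0 := by
  have hex : ∃ m, ∃ q : Polynomial S, q ≠ 0 ∧ Polynomial.aeval y q = 0 ∧ q.natDegree = m := by
    obtain ⟨q, h1, h2⟩ := h
    exact ⟨_, q, h1, h2, rfl⟩
  classical
  have : IsAddTorsionFree S := hS.isAddTorsionFree (algebraMap S ℝ).toAddMonoidHom
  obtain ⟨q, h1, h2, h3⟩ := Nat.find_spec hex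
  have hd : q.natDegree ≠ 0 := fun h0 => by
    rw [Polynomial.eq_C_of_natDegree_eq_zero h0] at h1 h2
    rw [Polynomial.aeval_C] at h2
    exact h1 (by rw [hS (h2.trans (map_zero _).symm), map_zero])
  exact ⟨q, h2, fun h0 => Nat.find_min hex (h3 ▸ Polynomial.natDegree_derivative_lt hd)
    ⟨_, fun h5 => hd (Polynomial.natDegree_eq_zero_of_derivative_eq_zero h5), h0, rfl⟩⟩

lemma exists_cut (x : ι → ℝ) : ∃ (J : Set ι) (F : ι → MvPolynomial ι k),
    J.encard = rk k (range x) ∧ (∀ j, aeval x (F j) = 0) ∧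
    ∀ v : ι → ℝ, (∀ j, dv x v (F j) = 0) → (∀ l ∈ J, v l = 0) → v = 0 := by
  obtain ⟨J, hJ, hI⟩ := exists_basis (k := k) x
  have hj : ∀ j, ∃ F : MvPolynomial ι k, aeval x F = 0 ∧
      ∀ v : ι → ℝ, (∀ l ∈ J, v l = 0) → dv x v F = 0 → v j = 0 := by
    intro j
    obtain ⟨q, h2, h4⟩ := exists_sep (S := Algebra.adjoin k (x '' J)) Subtype.val_injective (hI j)
    obtain ⟨F, h5, h6⟩ := lift_poly (k := k) x J (S := Algebra.adjoin k (x '' J))
      (fun a => a.2) j q
    refine ⟨F, h5.trans h2, fun v hv h7 => ?_⟩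
    rw [h6 v hv] at h7
    exact (mul_eq_zero.1 h7).resolve_left h4
  choose F h1 h2 using hj
  refine ⟨J, F, hJ, h1, fun v h3 hv => ?_⟩
  funext j
  rw [Pi.zero_apply]
  exact h2 j v hv (h3 j)

/-- The simple factor through a generic point of a hypersurface. -/
lemma exists_simple {P : MvPolynomial ι k} (hP : P ≠ 0) {x : ι → ℝ} (hx : aeval x P = 0)
    (hr : (Fintype.card ι : ℕ∞) ≤ rk k (range x) + 1) :
    ∃ (g P' : MvPolynomial ι k) (m : ℕ), P = g ^ m * P' ∧ aeval x P' ≠ 0 ∧ aeval x g = 0 ∧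
      ∃ l, aeval x (pderiv l g) ≠ 0 := by
  have h0 : ∃ g : MvPolynomial ι k, Prime g ∧ aeval x g = 0 := by
    induction P using UniqueFactorizationMonoid.induction_on_prime with
    | h₁ => exact absurd rfl hP
    | h₂ u hu => exact absurd hx (hu.map (aeval x)).ne_zero
    | h₃ a p ha hp ih =>
      rw [map_mul] at hx
      rcases mul_eq_zero.1 hx with h | h
      · exact ⟨p, hp, h⟩
      · exact ih ha h
  obtain ⟨g, hg, hgx⟩ := h0
  obtain ⟨m, P', h1, h2⟩ := WfDvdMonoid.max_power_factor hP hg.irreducible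
  refine ⟨g, P', m, h2, fun h => h1 (dvd_of_generic hg hgx hr h), hgx, ?_⟩
  by_contra hcon
  push Not at hcon
  obtain ⟨J, F, h3, h4, h5⟩ := exists_cut (k := k) x
  have h6 : J ≠ univ := fun h => by
    have h7 := rk_range_lt hP hx
    rw [← h3, h, encard_univ, ENat.card_eq_coe_fintype_card] at h7
    generalize Fintype.card ι = c at h7
    enat_to_nat
    omega
  obtain ⟨j, hj⟩ := (ne_univ_iff_exists_notMem J).1 h6
  classical
  have h7 := h5 (Pi.single j 1) (fun i => ?_) fun l hl => ?_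
  · simpa using congrFun h7 j
  · obtain ⟨H, hH⟩ := dvd_of_generic hg hgx hr (h4 i)
    rw [hH, dv_mul, hgx]
    simp [dv, hcon]
  · exact Pi.single_eq_of_ne (fun h : l = j => hj (h ▸ hl)) _

section Analytic

variable {X : Type*} [NormedAddCommGroup X] [NormedSpace ℝ X]

lemma hasStrictFDerivAt_aeval (c : ι → X →L[ℝ] ℝ) (F : MvPolynomial ι k) (q : X) :
    ∃ A : X →L[ℝ] ℝ, HasStrictFDerivAt (fun y => aeval (fun i => c i y) F) A q ∧
      ∀ v, A v = dv (fun i => c i q) (fun i => c i v) F := by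
  induction F using MvPolynomial.induction_on with
  | C a => exact ⟨0, by simpa using hasStrictFDerivAt_const _ _, fun v => by simp [dv_C]⟩
  | add p r hp hr =>
    obtain ⟨A, h1, h2⟩ := hp
    obtain ⟨B, h3, h4⟩ := hr
    refine ⟨A + B, by simpa only [map_add] using h1.fun_add h3, fun v => ?_⟩
    rw [dv_add, ← h2, ← h4, ContinuousLinearMap.add_apply]
  | mul_X p i hp =>
    obtain ⟨A, h1, h2⟩ := hp
    refine ⟨_, by simpa only [map_mul, aeval_X] using h1.fun_mul (c i).hasStrictFDerivAt,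
      fun v => ?_⟩
    rw [dv_mul, dv_X, ← h2, aeval_X]
    simp

theorem dimH_rk_le [FiniteDimensional ℝ X] [Countable k] (c : ι → X →L[ℝ] ℝ)
    (hc : ∀ v, (∀ i, c i v = 0) → v = 0) (r : ℕ) :
    dimH {q | rk k (range fun i => c i q) ≤ r} ≤ r := by
  have : Countable (MvPolynomial ι k) := by
    rw [← Cardinal.mk_le_aleph0_iff]
    refine MvPolynomial.cardinalMk_le_max_lift.trans ?_
    simp
  let S : (ι → MvPolynomial ι k) → Set X := fun F => {q | ∀ j, aeval (fun i => c i q) (F j) = 0}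
  have hcov : {q | rk k (range fun i => c i q) ≤ r} ⊆
      ⋃ F, {q | q ∈ S F ∧ finrank ℝ (H69.Tan (S F) q) ≤ r} := by
    intro q hq
    obtain ⟨J, F, h1, h2, h3⟩ := exists_cut (k := k) fun i => c i q
    refine mem_iUnion.2 ⟨F, h2, ?_⟩
    classical
    let L : H69.Tan (S F) q →ₗ[ℝ] (J → ℝ) :=
      LinearMap.pi fun l => ((c l : X →ₗ[ℝ] ℝ)).comp (Submodule.subtype _)
    have hL : Function.Injective L := by
      rw [injective_iff_map_eq_zero]
      rintro ⟨v, hv⟩ h
      refine Subtype.ext (hc v fun i => congrFun (h3 (fun i => c i v) (fun j => ?_)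
        fun l hl => congrFun h ⟨l, hl⟩) i)
      obtain ⟨A, h4, h5⟩ := hasStrictFDerivAt_aeval c (F j) q
      exact H69.Dir.eq_zero (S := S F) (φ := fun y => aeval (fun i => c i y) (F j))
        ⟨A, h4.hasFDerivAt, h5 v⟩ h2 hv fun y hy => hy j
    have h4 := LinearMap.finrank_le_finrank_of_injective hL
    rw [finrank_pi] at h4
    have h5 : (Fintype.card J : ℕ∞) ≤ r := by
      rw [← ENat.card_eq_coe_fintype_card]
      exact h1.le.trans hq
    exact h4.trans (by exact_mod_cast h5)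
  refine (dimH_mono hcov).trans ?_
  rw [dimH_iUnion]
  exact iSup_le fun F => H69.dimH_small_tangent _ _

end Analytic

end Pool.Agent.MP_249f74_an.H97
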