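import Mathlib
import Pool.Agent.MP_249f74_an.H97.Cut
import Pool.Agent.MP_249f74_an.H97.Core

/-!
Ivrii's conjecture for boundaries contained in a non-circular real algebraic hypersurface.
-/

open Set MvPolynomial Filter Topology

namespace Pool.Agent.MP_249f74_an.H97

variable {k : Type*} [Field k] [Algebra k ℝ] {ι : Type*} [Fintype ι]

lemma mem_frontier_of {X : Type*} [NormedAddCommGroup X] [NormedSpace ℝ X] {f : X → ℝ}
    (hf : Continuous f) {y : X} (h0 : f y = 0) (h1 : fderiv ℝ f y ≠ 0) :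
    y ∈ frontier {x | f x < 0} := by
  rw [(isOpen_lt hf continuous_const).frontier_eq]
  refine ⟨?_, fun h => (ne_of_lt h) h0⟩
  rw [mem_closure_iff_frequently]
  by_contra h
  rw [not_frequently] at h
  refine h1 (IsLocalMin.fderiv_eq_zero ?_)
  filter_upwards [h] with x hx
  rw [h0]
  exact not_lt.1 hx

lemma normal_of_generic {f : EuclideanSpace ℝ ι → ℝ} (hf : ContDiff ℝ 1 f)
    {P : MvPolynomial ι k} (hP : P ≠ 0)
    (hfP : ∀ x ∈ frontier {x | f x < 0}, aeval (fun i => x i) P = 0) {x : EuclideanSpace ℝ ι}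
    (h0 : f x = 0) (h1 : gradient f x ≠ 0)
    (hr : (Fintype.card ι : ℕ∞) ≤ rk k (range fun i => x i) + 1) :
    ∃ (g : MvPolynomial ι k) (c : ℝ), c ≠ 0 ∧ aeval (fun i => x i) g = 0 ∧
      ∀ l, aeval (fun i => x i) (pderiv l g) = c * gradient f x l := by
  classical
  have h2 : fderiv ℝ f x ≠ 0 := fun h => h1 (by simp [gradient, h])
  obtain ⟨g, P', m, h3, h4, h5, l0, hl0⟩ :=
    exists_simple hP (hfP x (mem_frontier_of hf.continuous h0 h2)) hr
  let c : ι → EuclideanSpace ℝ ι →L[ℝ] ℝ := fun i => EuclideanSpace.proj i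
  obtain ⟨A, hA, hA'⟩ := hasStrictFDerivAt_aeval c g x
  obtain ⟨A', hA2, -⟩ := hasStrictFDerivAt_aeval c P' x
  have e1 := hA2.continuousAt.eventually_ne h4
  have e2 := (hf.continuous_fderiv one_ne_zero).continuousAt.eventually_ne h2
  have hext : IsLocalExtrOn (fun y => aeval (fun i => c i y) g) {y | f y = f x} x := by
    refine Or.inr ?_
    filter_upwards [nhdsWithin_le_nhds e1, nhdsWithin_le_nhds e2, self_mem_nhdsWithin]
      with y hy1 hy2 hy3
    have h6 := hfP y (mem_frontier_of hf.continuous (hy3.trans h0) hy2)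
    rw [h3, map_mul, map_pow] at h6
    exact ((eq_zero_of_pow_eq_zero ((mul_eq_zero.1 h6).resolve_right hy1)).trans h5.symm).le
  obtain ⟨a, b, hab, h6⟩ := hext.exists_multipliers_of_hasStrictFDerivAt_1d
    (hf.contDiffAt.hasStrictFDerivAt one_ne_zero) hA
  have hb : b ≠ 0 := by
    rintro rfl
    rw [zero_smul, add_zero, smul_eq_zero] at h6
    exact hab (by rw [h6.resolve_right h2]; rfl)
  have h7 : ∀ l, aeval (fun i => x i) (pderiv l g) = -a / b * gradient f x l := fun l => by
    have h8 := congrArg (fun T : EuclideanSpace ℝ ι →L[ℝ] ℝ => T (EuclideanSpace.single l 1)) h6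
    simp only [ContinuousLinearMap.add_apply, ContinuousLinearMap.smul_apply, hA', smul_eq_mul,
      ContinuousLinearMap.zero_apply, ← inner_gradient_left,
      EuclideanSpace.inner_single_right] at h8
    have h9 : dv (fun i => c i x) (fun i => c i (EuclideanSpace.single l 1)) g =
        aeval (fun i => x i) (pderiv l g) := by
      simp [dv, c, Pi.single_apply]
    rw [h9] at h8
    simp only [conj_trivial, one_mul] at h8
    field_simp
    linear_combination h8
  exact ⟨g, -a / b, fun h => hl0 (by rw [h7, h, zero_mul]), h5, h7⟩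

lemma top_map {k' : Type*} [Field k'] (ψ : k →+* k') (P : MvPolynomial ι k) :
    top (MvPolynomial.map ψ P) = MvPolynomial.map ψ (top P) := by
  have h : (MvPolynomial.map ψ P).totalDegree = P.totalDegree := by
    simp only [totalDegree, support_map_of_injective _ ψ.injective]
  classical
  ext m
  simp only [top, h, coeff_homogeneousComponent, coeff_map, apply_ite ψ, map_zero]

theorem dimH_periodic {n : ℕ} (hn : 1 ≤ n) {f : EuclideanSpace ℝ (Fin (n + 1)) → ℝ}
    (hf : ContDiff ℝ 1 f) {P : MvPolynomial (Fin (n + 1)) ℝ} (hP : ¬ Q ℝ (Fin (n + 1)) ∣ top P)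
    (hfP : ∀ x ∈ frontier {x | f x < 0}, eval (fun i => x i) P = 0) :
    dimH {q : EuclideanSpace ℝ (Fin (n + 1)) × EuclideanSpace ℝ (Fin (n + 1)) |
      ∃ N : ℕ, 1 ≤ N ∧ ∃ p u : ℕ → EuclideanSpace ℝ (Fin (n + 1)),
        p 0 = q.1 ∧ u 0 = q.2 ∧ p N = q.1 ∧ u N = q.2 ∧
        ∀ i < N, f (p i) = 0 ∧ ‖u i‖ = 1 ∧ gradient f (p i) ≠ 0 ∧
          (∃ t : ℝ, 0 < t ∧ p (i + 1) = p i + t • u i) ∧
          u (i + 1) = u i - (2 * inner ℝ (u i) (gradient f (p (i + 1))) /
              ‖gradient f (p (i + 1))‖ ^ 2) • gradient f (p (i + 1))}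
      ≤ ((2 * n - 1 : ℕ) : ENNReal) := by
  let k := Subfield.closure (P.coeffs : Set ℝ)
  have : Countable k := by
    rw [← Cardinal.mk_le_aleph0_iff]
    refine (Subfield.cardinalMk_closure_le_max _).trans ?_
    simp
  obtain ⟨P0, hP0e⟩ : P ∈ range (MvPolynomial.map (algebraMap k ℝ)) :=
    mem_range_map_iff_coeffs_subset.2 fun c hc => ⟨⟨c, Subfield.subset_closure hc⟩, rfl⟩
  have hP' : ¬ Q k (Fin (n + 1)) ∣ top P0 := fun h => hP (by
    rw [← hP0e, top_map]
    simpa [Q] using map_dvd (MvPolynomial.map (algebraMap k ℝ)) h)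
  have hfP' : ∀ x ∈ frontier {x | f x < 0}, aeval (fun i => x i) P0 = 0 := fun x hx => by
    rw [aeval_def, ← eval_map, hP0e]
    exact hfP x hx
  let c : Fin (n + 1) ⊕ Fin (n + 1) →
      EuclideanSpace ℝ (Fin (n + 1)) × EuclideanSpace ℝ (Fin (n + 1)) →L[ℝ] ℝ :=
    Sum.elim (fun i => (EuclideanSpace.proj i).comp (ContinuousLinearMap.fst ℝ _ _))
      fun i => (EuclideanSpace.proj i).comp (ContinuousLinearMap.snd ℝ _ _)
  refine (dimH_mono ?_).trans (dimH_rk_le (k := k) c (fun v hv => ?_) _)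
  swap
  · ext i
    · exact hv (Sum.inl i)
    · exact hv (Sum.inr i)
  rintro q ⟨N, hN, p, u, h1, h2, h3, h4, H⟩
  choose! t ht0 ht using fun i hi => (H i hi).2.2.2.1
  have hp' : ∀ i < N, f (p (i + 1)) = 0 ∧ gradient f (p (i + 1)) ≠ 0 := fun i hi => by
    rcases (Nat.succ_le_of_lt hi).lt_or_eq with h | h
    · exact ⟨(H _ h).1, (H _ h).2.2.1⟩
    · rw [show i + 1 = N from h, h3, ← h1]
      exact ⟨(H 0 hN).1, (H 0 hN).2.2.1⟩
  have hc := core hn hP' hN (p := fun i j => p i j) (u := fun i j => u i j)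
    (ν := fun i j => gradient f (p i) j) (t := t)
    (fun i hi => hfP' _ (mem_frontier_of hf.continuous (H i hi).1 fun h =>
      (H i hi).2.2.1 (by simp [gradient, h])))
    (fun i hi => by rw [← EuclideanSpace.real_norm_sq_eq, (H i hi).2.1, one_pow]) ht0
    (fun i hi j => by rw [ht i hi]; simp)
    (fun i hi j => by
      rw [(H i hi).2.2.2.2, EuclideanSpace.real_norm_sq_eq, PiLp.inner_apply]
      simp [mul_comm])
    (by rw [h3, h1]) (by rw [h4, h2]) fun i hi hr => by
      obtain ⟨g, c, h5, h6, h7⟩ := normal_of_generic hf (ne_zero_of_top hP') hfP' (hp' i hi).1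
        (hp' i hi).2 (by rw [Fintype.card_fin]; push_cast; gcongr)
      refine ⟨g, c, h5, h6, ?_, h7⟩
      by_contra h
      push Not at h
      exact (hp' i hi).2 (by ext l; exact h l)
  have h5 : (range fun i => c i q) = range (fun j => p 0 j) ∪ range fun j => u 0 j := by
    rw [Sum.range_eq, h1, h2]
    rfl
  rw [mem_setOf_eq, h5]
  generalize rk k (range (fun j => p 0 j) ∪ range fun j => u 0 j) = r at hc
  clear * - hc hn
  enat_to_nat
  omega

end Pool.Agent.MP_249f74_an.H97
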